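import Pool.Agent.CBG.StmtsB

/-!
# Squad CBG, row LOC: the local theorem
-/

set_option autoImplicit false
set_option maxSynthPendingDepth 3

open scoped Manifold ContDiff Topology
open Set Filter MeasureTheory

namespace Pool.Agent.CBG.H5

open Pool.Agent.CBG

theorem nsq_pos {a : ℝ × ℝ} (h : a ≠ 0) : 0 < nsq a := by
  have h1 : a.1 ≠ 0 ∨ a.2 ≠ 0 := by
    by_contra hc
    push Not at hc
    exact h (Prod.ext hc.1 hc.2)
  unfold nsq
  rcases h1 with h1 | h1
  · have := sq_pos_of_ne_zero h1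
    positivity
  · have := sq_pos_of_ne_zero h1
    positivity

theorem nsq_add (a b : ℝ × ℝ) (ε : ℝ) :
    nsq (a + ε • b) = nsq a + 2 * ε * (a.1 * b.1 + a.2 * b.2) + ε ^ 2 * nsq b := by
  simp only [nsq, Prod.fst_add, Prod.snd_add, Prod.smul_fst, Prod.smul_snd, smul_eq_mul]
  ring

/-- **LOC** -/
theorem loc (hsoc : SocStmt) (hsymS : SymStmt) (hskw : SkwStmt) (hort : OrtStmt)
    (hwpr : WprStmt) : LocStmt := by
  intro n G X L a hG hsym hpos hinj hodd haL ha0 h1 h2 h3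
  obtain ⟨hs1, hs2, hs3⟩ := hsymS n G hG hsym
  have hs0 : ∀ v w : Ed n, G 0 v w = G 0 w v := hsym.self_of_nhds
  set e : Ed n := X a with he
  have hXz : ∀ b : ℝ × ℝ, b ≠ 0 → X b ≠ 0 := by
    intro b hb hx
    exact hb (hinj (by rw [hx, map_zero]))
  have he0 : e ≠ 0 := hXz a ha0
  have hee : 0 < G 0 e e := hpos e he0
  have hna := nsq_pos ha0
  -- (h2) and SOC
  have soc2 : ∀ (V : Ed n), ∀ b ∈ L,
      fderiv ℝ G 0 V e e + 2 * G 0 e (X b) =
        2 * (G 0 e e / nsq a * (a.1 * b.1 + a.2 * b.2)) ∧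
      0 ≤ fderiv ℝ (fderiv ℝ G) 0 V V e e + 4 * fderiv ℝ G 0 V e (X b) +
        2 * G 0 (X b) (X b) := by
    intro V b hb
    refine hsoc n G hG hsym V e (X b) _ ?_
    have hten : Tendsto (fun ε : ℝ => ε • V) (𝓝 0) (𝓝 0) := by
      have hc : Continuous fun ε : ℝ => ε • V := by fun_prop
      have := hc.tendsto 0
      simpa using this
    filter_upwards [hten.eventually h2] with ε hε
    have hmem : a + ε • b ∈ L := L.add_mem haL (L.smul_mem ε hb)
    have h4 := hε (a + ε • b) hmem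
    rw [nsq_add, map_add, map_smul, ← he] at h4
    have h5 : 0 ≤ ε ^ 2 * nsq b := by
      have : 0 ≤ nsq b := by unfold nsq; positivity
      positivity
    have h6 : (nsq a + 2 * ε * (a.1 * b.1 + a.2 * b.2)) * G 0 e e ≤
        nsq a * G (ε • V) (e + ε • X b) (e + ε • X b) := by
      nlinarith
    have h7 : G 0 e e + 2 * ε * (G 0 e e / nsq a * (a.1 * b.1 + a.2 * b.2)) =
        (nsq a + 2 * ε * (a.1 * b.1 + a.2 * b.2)) * G 0 e e / nsq a := by
      field_simp
    have h8 : (nsq a + 2 * ε * (a.1 * b.1 + a.2 * b.2)) * G 0 e e / nsq a ≤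
        G (ε • V) (e + ε • X b) (e + ε • X b) := by
      rw [div_le_iff₀ hna]
      linarith
    linarith
  have hDee : ∀ V : Ed n, fderiv ℝ G 0 V e e = 0 := by
    intro V
    have h4 := (soc2 V 0 L.zero_mem).1
    simpa using h4
  -- the orthogonal complement
  obtain ⟨hort1, -⟩ := hort
  obtain ⟨H, hH, hcompl, hdim⟩ := hort1 n (G 0) hs0 hpos (L.map (X : ℝ × ℝ →ₗ[ℝ] Ed n))
  have hHL : ∀ z, z ∈ H ↔ ∀ b ∈ L, G 0 (X b) z = 0 := by
    intro z
    rw [hH]
    constructor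
    · intro h b hb
      exact h (X b) ⟨b, hb, rfl⟩
    · rintro h v ⟨b, hb, rfl⟩
      exact h b hb
  have hfr : Module.finrank ℝ (L.map (X : ℝ × ℝ →ₗ[ℝ] Ed n)) = Module.finrank ℝ L :=
    (Submodule.equivMapOfInjective (X : ℝ × ℝ →ₗ[ℝ] Ed n) hinj L).finrank_eq.symm
  have hHodd : Odd (Module.finrank ℝ H) := by
    rw [hfr] at hdim
    rw [Nat.odd_iff] at hodd ⊢
    omega
  -- (h3) and SOC
  have soc3 : ∀ t ∈ L, ∀ z ∈ H, fderiv ℝ G 0 (X t) z z = 0 ∧
      0 ≤ fderiv ℝ (fderiv ℝ G) 0 (X t) (X t) z z := by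
    intro t ht z hz
    have h4 := hsoc n G hG hsym (X t) z 0 0 (by
      refine Filter.Eventually.of_forall fun ε => ?_
      have h5 := h3 (ε • t) (L.smul_mem ε ht) z ((hHL z).1 hz)
      rw [map_smul] at h5
      simpa using h5)
    simpa using h4
  have hpol : ∀ t ∈ L, ∀ z ∈ H, ∀ z' ∈ H, fderiv ℝ G 0 (X t) z z' = 0 := by
    intro t ht z hz z' hz'
    have h4 := (soc3 t ht (z + z') (H.add_mem hz hz')).1
    have h5 := (soc3 t ht z hz).1
    have h6 := (soc3 t ht z' hz').1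
    have h7 := hs1 (X t) z z'
    simp only [map_add, ContinuousLinearMap.add_apply] at h4
    linarith
  -- WPR
  have wpr := fun z (hz : z ∈ H) => hwpr n G X L hG hsym hpos hinj h1 z ((hHL z).1 hz)
  -- the skew form
  let Ω : Ed n →ₗ[ℝ] Ed n →ₗ[ℝ] ℝ := LinearMap.mk₂ ℝ
    (fun z z' => fderiv ℝ G 0 z e z' - fderiv ℝ G 0 z' e z)
    (fun x y z => by simp only [map_add, ContinuousLinearMap.add_apply]; ring)
    (fun c x y => by simp only [map_smul, ContinuousLinearMap.smul_apply, smul_eq_mul]; ring)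
    (fun x y z => by simp only [map_add, ContinuousLinearMap.add_apply]; ring)
    (fun c x y => by simp only [map_smul, ContinuousLinearMap.smul_apply, smul_eq_mul]; ring)
  have hΩ : ∀ x y, Ω x y = fderiv ℝ G 0 x e y - fderiv ℝ G 0 y e x := fun x y => rfl
  obtain ⟨z, hzH, hz0, hzΩ⟩ := hskw n H hHodd Ω (fun x y => by rw [hΩ, hΩ]; ring)
  obtain ⟨hw1, c, hcL, hw2, hw3⟩ := wpr z hzH
  have hez : G 0 e z = 0 := (hHL z).1 hzH a haL
  refine ⟨z, ?_, ?_⟩
  · rw [LinearIndependent.pair_iff]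
    intro s t hst
    have h4 := congrArg (G 0 e) hst
    rw [map_add, map_smul, map_smul, hez, map_zero, smul_zero, add_zero, smul_eq_mul] at h4
    have hs : s = 0 := by
      rcases mul_eq_zero.1 h4 with h5 | h5
      · exact h5
      · exact absurd h5 hee.ne'
    subst hs
    rw [zero_smul, zero_add] at hst
    exact ⟨rfl, (smul_eq_zero.1 hst).resolve_right hz0⟩
  · intro α β γ hα hβ hγ
    -- a vector orthogonal to `H` is in `T`
    have inT : ∀ u : Ed n, (∀ z' ∈ H, G 0 u z' = 0) → ∃ b ∈ L, X b = u := by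
      intro u hu
      have h4 : u ∈ L.map (X : ℝ × ℝ →ₗ[ℝ] Ed n) ⊔ H := by
        rw [hcompl.sup_eq_top]
        exact Submodule.mem_top
      obtain ⟨v, ⟨b, hb, hbv⟩, w, hw, hvw⟩ := Submodule.mem_sup.1 h4
      have h5 : G 0 v w = 0 := by
        rw [← hbv]
        exact (hHL w).1 hw b hb
      have h6 := hu w hw
      rw [← hvw, map_add, ContinuousLinearMap.add_apply, h5, zero_add] at h6
      have h7 : w = 0 := by
        by_contra hne
        exact (hpos w hne).ne' h6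
      refine ⟨b, hb, ?_⟩
      rw [← hvw, h7, add_zero]
      exact hbv
    have hαe : ∀ x, G 0 α x = (fderiv ℝ G 0 e z x + fderiv ℝ G 0 z e x -
      fderiv ℝ G 0 x e z) / 2 := hα
    have hβe : ∀ x, G 0 β x = fderiv ℝ G 0 e e x := by
      intro x
      have h4 : G 0 β x = (fderiv ℝ G 0 e e x + fderiv ℝ G 0 e e x -
        fderiv ℝ G 0 x e e) / 2 := hβ x
      rw [h4, hDee]
      ring
    have hγe : ∀ b ∈ L, G 0 γ (X b) = G 0 (X b) (X c) := by
      intro b hb
      have h4 : G 0 γ (X b) = (fderiv ℝ G 0 z z (X b) + fderiv ℝ G 0 z z (X b) -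
        fderiv ℝ G 0 (X b) z z) / 2 := hγ (X b)
      rw [h4, (soc3 b hb z hzH).1, hs1 z z (X b), hw2 b hb]
      ring
    obtain ⟨cα, hcα, hXα⟩ := inT α (fun z' hz' => by
      rw [hαe, hpol a haL z hzH z' hz']
      have h4 := hzΩ z' hz'
      rw [hΩ] at h4
      linarith)
    obtain ⟨cβ, hcβ, hXβ⟩ := inT β (fun z' hz' => by
      rw [hβe]
      exact (wpr z' hz').1 a haL a haL)
    have hαv : fderiv ℝ G 0 z e α = 2 * G 0 α α := by
      have h4 := hαe α
      have h5 : fderiv ℝ G 0 e z α = 0 := by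
        rw [hs1, ← hXα]
        exact hw1 a haL cα hcα
      have h6 : fderiv ℝ G 0 α e z = 0 := by
        rw [← hXα]
        exact hw1 cα hcα a haL
      rw [h5, h6] at h4
      linarith
    have hβγ : G 0 β γ = fderiv ℝ (fderiv ℝ G) 0 z e e z := by
      rw [hw3 a haL, ← hβe (X c), hs0 β γ, ← hXβ]
      exact hγe cβ hcβ
    -- (2) with `V = z`, `W = -2 α`
    have h4 := (soc2 z ((-2 : ℝ) • cα) (L.smul_mem _ hcα)).2
    rw [map_smul, hXα] at h4
    simp only [map_smul, ContinuousLinearMap.smul_apply, smul_eq_mul] at h4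
    have h5 := (soc3 a haL z hzH).2
    have h6 : fderiv ℝ (fderiv ℝ G) 0 e z e z = fderiv ℝ (fderiv ℝ G) 0 z e e z := by
      rw [hs3 e z]
    have h7 : 0 ≤ G 0 α α := by
      by_cases hα0 : α = 0
      · rw [hα0]
        simp
      · exact (hpos α hα0).le
    unfold curv
    rw [h6, hβγ]
    rw [hαv] at h4
    linarith

end Pool.Agent.CBG.H5
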